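import Mathlib

set_option autoImplicit false
set_option linter.unusedSectionVars false

/-! Spectral facts: sorted eigenbasis, Ky Fan's maximum principle, Weyl's monotonicity. -/

namespace Pool.Agent.T5h70.SK

open Matrix Finset
open scoped ComplexOrder

variable {ι : Type} [Fintype ι] [DecidableEq ι]

/-- the numbering of the index set -/
noncomputable def idx (ι : Type) [Fintype ι] : ι ≃ Fin (Fintype.card ι) :=
  (Fintype.equivOfCardEq (Fintype.card_fin _)).symm

/-- the eigenvectors as columns, in the order of `eigenvalues₀` -/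
noncomputable def SU {A : Matrix ι ι ℂ} (hA : A.IsHermitian) : Matrix ι (Fin (Fintype.card ι)) ℂ :=
  (hA.eigenvectorUnitary : Matrix ι ι ℂ).submatrix id (idx ι).symm

lemma su_left {A : Matrix ι ι ℂ} (hA : A.IsHermitian) : (SU hA)ᴴ * SU hA = 1 := by
  have h : (hA.eigenvectorUnitary : Matrix ι ι ℂ)ᴴ * (hA.eigenvectorUnitary : Matrix ι ι ℂ) = 1 :=
    (Matrix.mem_unitaryGroup_iff').1 hA.eigenvectorUnitary.2
  rw [SU, conjTranspose_submatrix, ← Equiv.coe_refl, submatrix_mul_equiv, h]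
  exact submatrix_one_equiv _

lemma su_right {A : Matrix ι ι ℂ} (hA : A.IsHermitian) : SU hA * (SU hA)ᴴ = 1 := by
  have h : (hA.eigenvectorUnitary : Matrix ι ι ℂ) * (hA.eigenvectorUnitary : Matrix ι ι ℂ)ᴴ = 1 :=
    (Matrix.mem_unitaryGroup_iff).1 hA.eigenvectorUnitary.2
  rw [SU, conjTranspose_submatrix, submatrix_mul_equiv _ _ _ (idx ι).symm, h]
  rfl

lemma spectral {A : Matrix ι ι ℂ} (hA : A.IsHermitian) :
    A = SU hA * diagonal (fun j => ((hA.eigenvalues₀ j : ℝ) : ℂ)) * (SU hA)ᴴ := by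
  have h := hA.spectral_theorem
  rw [Unitary.conjStarAlgAut_apply, Matrix.star_eq_conjTranspose] at h
  have h2 : (diagonal (fun j => ((hA.eigenvalues₀ j : ℝ) : ℂ)) : Matrix _ _ ℂ) =
      (diagonal (RCLike.ofReal ∘ hA.eigenvalues) : Matrix ι ι ℂ).submatrix
        (idx ι).symm (idx ι).symm := by
    rw [submatrix_diagonal_equiv]
    congr 1
    funext j
    simp only [Function.comp_apply, IsHermitian.eigenvalues]
    congr 2
    exact ((idx ι).apply_symm_apply j).symm
  rw [h2, SU, conjTranspose_submatrix, submatrix_mul_equiv, submatrix_mul_equiv]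
  exact h

lemma su_conj {A : Matrix ι ι ℂ} (hA : A.IsHermitian) :
    (SU hA)ᴴ * A * SU hA = diagonal (fun j => ((hA.eigenvalues₀ j : ℝ) : ℂ)) := by
  have h := spectral hA
  calc (SU hA)ᴴ * A * SU hA = (SU hA)ᴴ * (SU hA * diagonal (fun j => ((hA.eigenvalues₀ j : ℝ) : ℂ)) *
        (SU hA)ᴴ) * SU hA := by rw [← h]
    _ = ((SU hA)ᴴ * SU hA) * diagonal (fun j => ((hA.eigenvalues₀ j : ℝ) : ℂ)) *
        ((SU hA)ᴴ * SU hA) := by simp only [Matrix.mul_assoc]
    _ = _ := by rw [su_left]; simp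

/-- real diagonal entries in the system given by the columns of `U` -/
noncomputable def dg {κ : Type} [Fintype κ] (U : Matrix ι κ ℂ) (M : Matrix ι ι ℂ) (j : κ) : ℝ :=
  ((Uᴴ * M * U) j j).re

lemma dg_nonneg {κ : Type} [Fintype κ] (U : Matrix ι κ ℂ) {M : Matrix ι ι ℂ} (h : M.PosSemidef)
    (j : κ) : 0 ≤ dg U M j :=
  (Complex.le_def.1 ((h.conjTranspose_mul_mul_same U).diag_nonneg (i := j))).1

lemma dg_sub {κ : Type} [Fintype κ] (U : Matrix ι κ ℂ) (A B : Matrix ι ι ℂ) (j : κ) :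
    dg U (A - B) j = dg U A j - dg U B j := by
  simp [dg, Matrix.mul_sub, Matrix.sub_mul]

lemma dg_mono {κ : Type} [Fintype κ] (U : Matrix ι κ ℂ) {M N : Matrix ι ι ℂ}
    (h : (N - M).PosSemidef) (j : κ) : dg U M j ≤ dg U N j := by
  have := dg_nonneg U h j
  rw [dg_sub] at this
  linarith

lemma dg_one {κ : Type} [Fintype κ] [DecidableEq κ] {U : Matrix ι κ ℂ} (hU : Uᴴ * U = 1) (j : κ) :
    dg U 1 j = 1 := by
  simp [dg, hU]

lemma dg_sum {κ : Type} [Fintype κ] {U : Matrix ι κ ℂ} (hU : U * Uᴴ = 1) (M : Matrix ι ι ℂ) :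
    ∑ j, dg U M j = M.trace.re := by
  have h : ∑ j, dg U M j = ((Uᴴ * M * U).trace).re := by
    simp [Matrix.trace, dg]
  rw [h, Matrix.mul_assoc, Matrix.trace_mul_comm, Matrix.mul_assoc, hU, Matrix.mul_one]

lemma sum_eig {A : Matrix ι ι ℂ} (hA : A.IsHermitian) :
    ∑ j, hA.eigenvalues₀ j = A.trace.re := by
  rw [← dg_sum (su_right hA)]
  refine Finset.sum_congr rfl fun j _ => ?_
  rw [dg, su_conj]
  simp

lemma eig_nonneg {A : Matrix ι ι ℂ} (hA : A.PosSemidef) (j : Fin (Fintype.card ι)) :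
    0 ≤ hA.1.eigenvalues₀ j := by
  have := dg_nonneg (SU hA.1) hA j
  rw [dg, su_conj] at this
  simpa using this

/-- `tr (Q X) = ∑ λ_j ⟨x_j, Q x_j⟩` -/
lemma trace_mul_eq {X : Matrix ι ι ℂ} (hX : X.IsHermitian) (Q : Matrix ι ι ℂ) :
    (Q * X).trace.re = ∑ j, hX.eigenvalues₀ j * dg (SU hX) Q j := by
  conv_lhs => rw [spectral hX]
  rw [← Matrix.mul_assoc, ← Matrix.mul_assoc, Matrix.trace_mul_comm, ← Matrix.mul_assoc,
    ← Matrix.mul_assoc, Matrix.trace, Complex.re_sum]
  refine Finset.sum_congr rfl fun j _ => ?_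
  rw [Matrix.diag_apply, Matrix.mul_diagonal, mul_comm, Complex.re_ofReal_mul, dg]

/-- weights in `[0,1]` with total mass `k` : the average is at most the sum of the first `k`. -/
lemma sorted_ineq {N : ℕ} (x q : Fin N → ℝ) (hx : Antitone x) (hx0 : ∀ j, 0 ≤ x j)
    (h0 : ∀ j, 0 ≤ q j) (h1 : ∀ j, q j ≤ 1) (k : ℕ) (hs : ∑ j, q j ≤ k) :
    ∑ j, x j * q j ≤ ∑ j : Fin N, if (j : ℕ) < k then x j else 0 := by
  rcases lt_or_ge k N with hk | hk
  · set c := x ⟨k, hk⟩ with hc
    have key : ∀ j : Fin N, c * ((if (j : ℕ) < k then 1 else 0) - q j) ≤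
        (if (j : ℕ) < k then x j else 0) - x j * q j := by
      intro j
      split_ifs with h
      · have h2 : c ≤ x j := hx (Fin.le_def.2 (le_of_lt h))
        have h3 := h1 j
        nlinarith
      · have h2 : x j ≤ c := hx (Fin.le_def.2 (not_lt.1 h))
        have h3 := h0 j
        nlinarith
    have hsum := Finset.sum_le_sum fun j (_ : j ∈ Finset.univ) => key j
    rw [← Finset.mul_sum, Finset.sum_sub_distrib, Finset.sum_sub_distrib] at hsum
    have hcard : ∑ j : Fin N, (if (j : ℕ) < k then (1 : ℝ) else 0) = k := by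
      rw [Fin.sum_univ_eq_sum_range (fun j => if j < k then (1 : ℝ) else 0), ← Finset.sum_filter]
      have : Finset.filter (fun j => j < k) (Finset.range N) = Finset.range k := by
        ext j; simp only [mem_filter, mem_range]; omega
      rw [this]
      simp
    rw [hcard] at hsum
    have h5 : 0 ≤ c * ((k : ℝ) - ∑ j, q j) := mul_nonneg (hx0 _) (by linarith)
    have h6 := h5.trans hsum
    linarith
  · refine Finset.sum_le_sum fun j _ => ?_
    rw [if_pos (lt_of_lt_of_le j.2 hk)]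
    have := hx0 j
    have := h1 j
    nlinarith

/-- Ky Fan's maximum principle, upper bound -/
theorem kyfan_le {X : Matrix ι ι ℂ} (hX : X.PosSemidef) (Q : Matrix ι ι ℂ) (hQ : Q.PosSemidef)
    (hQ' : (1 - Q).PosSemidef) (k : ℕ) (hk : Q.trace.re ≤ k) :
    (Q * X).trace.re ≤
      ∑ j : Fin (Fintype.card ι), if (j : ℕ) < k then hX.1.eigenvalues₀ j else 0 := by
  rw [trace_mul_eq hX.1]
  refine sorted_ineq _ _ hX.1.eigenvalues₀_antitone (eig_nonneg hX) (fun j => dg_nonneg _ hQ j)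
    (fun j => ?_) k ?_
  · have := dg_mono (SU hX.1) hQ' j
    rwa [dg_one (su_left hX.1)] at this
  · rw [dg_sum (su_right hX.1)]
    exact hk

/-- the projection `U diag(1_{j<k}) U*` -/
noncomputable def proj {N : ℕ} (U : Matrix ι (Fin N) ℂ) (k : ℕ) : Matrix ι ι ℂ :=
  U * diagonal (fun j : Fin N => if (j : ℕ) < k then (1 : ℂ) else 0) * Uᴴ

lemma proj_psd {N : ℕ} (U : Matrix ι (Fin N) ℂ) (k : ℕ) : (proj U k).PosSemidef := by
  have : (diagonal (fun j : Fin N => if (j : ℕ) < k then (1 : ℂ) else 0)).PosSemidef := by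
    refine PosSemidef.diagonal fun j => ?_
    simp only [Pi.zero_apply]
    split_ifs
    · exact zero_le_one
    · exact le_rfl
  exact this.mul_mul_conjTranspose_same U

lemma proj_psd' {N : ℕ} {U : Matrix ι (Fin N) ℂ} (hU : U * Uᴴ = 1) (k : ℕ) :
    (1 - proj U k).PosSemidef := by
  have h1 : 1 - proj U k =
      U * diagonal (fun j : Fin N => if (j : ℕ) < k then (0 : ℂ) else 1) * Uᴴ := by
    have : (diagonal (fun j : Fin N => if (j : ℕ) < k then (0 : ℂ) else 1)) =
        1 - diagonal (fun j : Fin N => if (j : ℕ) < k then (1 : ℂ) else 0) := by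
      rw [← Matrix.diagonal_one, Matrix.diagonal_sub]
      congr 1
      funext j
      split_ifs <;> simp
    rw [this, Matrix.mul_sub, Matrix.sub_mul, Matrix.mul_one, hU, proj]
  have : (diagonal (fun j : Fin N => if (j : ℕ) < k then (0 : ℂ) else 1)).PosSemidef := by
    refine PosSemidef.diagonal fun j => ?_
    simp only [Pi.zero_apply]
    split_ifs
    · exact le_rfl
    · exact zero_le_one
  rw [h1]
  exact this.mul_mul_conjTranspose_same U

lemma trace_proj_mul {N : ℕ} (U : Matrix ι (Fin N) ℂ) (k : ℕ) (M : Matrix ι ι ℂ) :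
    (proj U k * M).trace.re = ∑ j : Fin N, if (j : ℕ) < k then dg U M j else 0 := by
  rw [proj, Matrix.mul_assoc, Matrix.mul_assoc, Matrix.trace_mul_comm, Matrix.mul_assoc,
    Matrix.trace, Complex.re_sum]
  refine Finset.sum_congr rfl fun j _ => ?_
  rw [Matrix.diag_apply, Matrix.diagonal_mul, dg]
  split_ifs
  · rw [one_mul]
  · rw [zero_mul, Complex.zero_re]

lemma card_lt {N k : ℕ} (hk : k ≤ N) : ∑ j : Fin N, (if (j : ℕ) < k then (1 : ℝ) else 0) = k := by
  rw [Fin.sum_univ_eq_sum_range (fun j => if j < k then (1 : ℝ) else 0), ← Finset.sum_filter]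
  have : Finset.filter (fun j => j < k) (Finset.range N) = Finset.range k := by
    ext j; simp only [mem_filter, mem_range]; omega
  rw [this]
  simp

lemma trace_proj {N : ℕ} {U : Matrix ι (Fin N) ℂ} (hU : Uᴴ * U = 1) (k : ℕ) (hk : k ≤ N) :
    (proj U k).trace.re = k := by
  have h := trace_proj_mul U k 1
  rw [Matrix.mul_one] at h
  rw [h]
  simp only [dg_one hU]
  exact card_lt hk

/-- the sum of the first `k` eigenvalues is attained -/
lemma trace_proj_self {X : Matrix ι ι ℂ} (hX : X.IsHermitian) (k : ℕ) :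
    (proj (SU hX) k * X).trace.re =
      ∑ j : Fin (Fintype.card ι), if (j : ℕ) < k then hX.eigenvalues₀ j else 0 := by
  rw [trace_proj_mul]
  refine Finset.sum_congr rfl fun j _ => ?_
  rw [dg, su_conj]
  simp

/-- Weyl's monotonicity -/
theorem weyl {G R : Matrix ι ι ℂ} (hG : G.IsHermitian) (hR : R.IsHermitian)
    (h : (R - G).PosSemidef) (j : Fin (Fintype.card ι)) :
    hG.eigenvalues₀ j ≤ hR.eigenvalues₀ j := by
  -- a combination of the first `j + 1` eigenvectors of `G` orthogonal to the first `j` of `R`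
  have hj1 : (j : ℕ) + 1 ≤ Fintype.card ι := j.2
  set E : Matrix (Fin (Fintype.card ι)) (Fin ((j : ℕ) + 1)) ℂ :=
    fun i l => if i = Fin.castLE hj1 l then 1 else 0 with hE
  set F : Matrix (Fin (j : ℕ)) (Fin (Fintype.card ι)) ℂ :=
    fun l i => if i = Fin.castLE (le_of_lt j.2) l then 1 else 0 with hF
  set f : (Fin ((j : ℕ) + 1) → ℂ) →ₗ[ℂ] (Fin (j : ℕ) → ℂ) :=
    (F * (SU hR)ᴴ * SU hG * E).mulVecLin with hf
  have hker : LinearMap.ker f ≠ ⊥ := by
    apply f.ker_ne_bot_of_finrank_lt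
    simp
  obtain ⟨c, hc, hc0⟩ := Submodule.exists_mem_ne_zero_of_ne_bot hker
  rw [LinearMap.mem_ker, hf, Matrix.mulVecLin_apply] at hc
  set z : Fin (Fintype.card ι) → ℂ := E *ᵥ c with hz
  set x : ι → ℂ := SU hG *ᵥ z with hx
  set y : Fin (Fintype.card ι) → ℂ := (SU hR)ᴴ *ᵥ x with hy
  have hzj : ∀ i : Fin (Fintype.card ι), (j : ℕ) < i → z i = 0 := by
    intro i hi
    simp only [hz, Matrix.mulVec, dotProduct, hE]
    refine Finset.sum_eq_zero fun l _ => ?_
    rw [if_neg, zero_mul]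
    intro h'
    have := congrArg Fin.val h'
    simp at this
    omega
  have hyj : ∀ i : Fin (Fintype.card ι), (i : ℕ) < j → y i = 0 := by
    intro i hi
    have h1 : (F *ᵥ y) ⟨i, hi⟩ = y i := by
      simp only [Matrix.mulVec, dotProduct, hF]
      rw [Finset.sum_eq_single i]
      · have h0 : i = Fin.castLE (le_of_lt j.2) (⟨i, hi⟩ : Fin (j : ℕ)) := Fin.ext rfl
        rw [if_pos h0, one_mul]
      · intro b _ hb
        rw [if_neg, zero_mul]
        intro h'
        exact hb (h'.trans (Fin.ext rfl))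
      · intro h'; exact absurd (Finset.mem_univ _) h'
    rw [← h1, hy, hx, hz, Matrix.mulVec_mulVec, Matrix.mulVec_mulVec, Matrix.mulVec_mulVec, hc]
    rfl
  have hnz : 0 < ∑ i, Complex.normSq (z i) := by
    have : ∃ l, c l ≠ 0 := by
      by_contra hcon
      push Not at hcon
      exact hc0 (funext hcon)
    obtain ⟨l, hl⟩ := this
    refine Finset.sum_pos' (fun i _ => Complex.normSq_nonneg _) ⟨Fin.castLE hj1 l, mem_univ _, ?_⟩
    have : z (Fin.castLE hj1 l) = c l := by
      simp only [hz, Matrix.mulVec, dotProduct, hE]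
      rw [Finset.sum_eq_single l]
      · rw [if_pos rfl, one_mul]
      · intro b _ hb
        rw [if_neg, zero_mul]
        intro h'
        exact hb (Fin.castLE_injective hj1 h').symm
      · intro h'; exact absurd (Finset.mem_univ _) h'
    rw [this]
    exact Complex.normSq_pos.2 hl
  -- quadratic forms
  have hdot : ∀ (w : Fin (Fintype.card ι) → ℂ), star w ⬝ᵥ w = ((∑ i, Complex.normSq (w i) : ℝ) : ℂ) := by
    intro w
    rw [Complex.ofReal_sum]
    refine Finset.sum_congr rfl fun i _ => ?_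
    rw [Pi.star_apply, Complex.star_def, Complex.normSq_eq_conj_mul_self]
  have hqf : ∀ (w : Fin (Fintype.card ι) → ℂ) (d : Fin (Fintype.card ι) → ℝ),
      (star w ⬝ᵥ (diagonal (fun i => ((d i : ℝ) : ℂ)) *ᵥ w)).re = ∑ i, d i * Complex.normSq (w i) := by
    intro w d
    rw [dotProduct, Complex.re_sum]
    refine Finset.sum_congr rfl fun i _ => ?_
    rw [Matrix.mulVec_diagonal, Pi.star_apply, Complex.star_def]
    rw [show (starRingEnd ℂ) (w i) * (((d i : ℝ) : ℂ) * w i) =
      ((d i : ℝ) : ℂ) * ((starRingEnd ℂ) (w i) * w i) by ring, ← Complex.normSq_eq_conj_mul_self,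
      ← Complex.ofReal_mul, Complex.ofReal_re]
  have hxx : star x ⬝ᵥ x = star z ⬝ᵥ z := by
    rw [hx, Matrix.star_mulVec, ← Matrix.dotProduct_mulVec, Matrix.mulVec_mulVec, su_left,
      Matrix.one_mulVec]
  have hyy : star y ⬝ᵥ y = star x ⬝ᵥ x := by
    rw [hy, Matrix.star_mulVec, Matrix.conjTranspose_conjTranspose, ← Matrix.dotProduct_mulVec,
      Matrix.mulVec_mulVec, su_right, Matrix.one_mulVec]
  have hzz : (∑ i, Complex.normSq (y i)) = ∑ i, Complex.normSq (z i) := by
    have h1 := hyy.trans hxx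
    rw [hdot, hdot] at h1
    exact_mod_cast h1
  have hGx : (star x ⬝ᵥ (G *ᵥ x)).re = ∑ i, hG.eigenvalues₀ i * Complex.normSq (z i) := by
    rw [← hqf, ← su_conj hG, hx, Matrix.star_mulVec, ← Matrix.dotProduct_mulVec,
      Matrix.mulVec_mulVec, Matrix.mulVec_mulVec, Matrix.mul_assoc]
  have hRgen : ∀ w : ι → ℂ, star w ⬝ᵥ (R *ᵥ w) = star ((SU hR)ᴴ *ᵥ w) ⬝ᵥ
      (diagonal (fun i => ((hR.eigenvalues₀ i : ℝ) : ℂ)) *ᵥ ((SU hR)ᴴ *ᵥ w)) := by
    intro w
    conv_lhs => rw [spectral hR]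
    rw [Matrix.star_mulVec, Matrix.conjTranspose_conjTranspose, ← Matrix.dotProduct_mulVec,
      Matrix.mulVec_mulVec, Matrix.mulVec_mulVec]
  have hRx : (star x ⬝ᵥ (R *ᵥ x)).re = ∑ i, hR.eigenvalues₀ i * Complex.normSq (y i) := by
    rw [← hqf, hRgen]
  have hle : (star x ⬝ᵥ (G *ᵥ x)).re ≤ (star x ⬝ᵥ (R *ᵥ x)).re := by
    have h1 := (Complex.le_def.1 (h.dotProduct_mulVec_nonneg x)).1
    rw [Matrix.sub_mulVec, dotProduct_sub, Complex.sub_re, Complex.zero_re] at h1
    linarith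
  have hlow : hG.eigenvalues₀ j * ∑ i, Complex.normSq (z i) ≤ (star x ⬝ᵥ (G *ᵥ x)).re := by
    rw [hGx, Finset.mul_sum]
    refine Finset.sum_le_sum fun i _ => ?_
    rcases lt_or_ge (j : ℕ) (i : ℕ) with h' | h'
    · rw [hzj i h']; simp
    · exact mul_le_mul_of_nonneg_right (hG.eigenvalues₀_antitone (Fin.le_def.2 h'))
        (Complex.normSq_nonneg _)
  have hupp : (star x ⬝ᵥ (R *ᵥ x)).re ≤ hR.eigenvalues₀ j * ∑ i, Complex.normSq (z i) := by
    rw [hRx, ← hzz, Finset.mul_sum]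
    refine Finset.sum_le_sum fun i _ => ?_
    rcases lt_or_ge (i : ℕ) (j : ℕ) with h' | h'
    · rw [hyj i h']; simp
    · exact mul_le_mul_of_nonneg_right (hR.eigenvalues₀_antitone (Fin.le_def.2 h'))
        (Complex.normSq_nonneg _)
  have := hlow.trans (hle.trans hupp)
  exact le_of_mul_le_mul_right this hnz

end Pool.Agent.T5h70.SK
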