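import Pool.Agent.T5h70.SK.Base

set_option autoImplicit false
set_option linter.unusedSectionVars false

/-! The weight `π` and the bound `tr P (A ⊗ B) ≤ ∑ π_{cd} α_c β_d`. -/

namespace Pool.Agent.T5h70.SK

open Matrix Finset
open scoped ComplexOrder Kronecker

variable {ι κ : Type} [Fintype ι] [DecidableEq ι] [Fintype κ] [DecidableEq κ]

/-- Abel summation -/
lemma abel_nonneg : ∀ (N : ℕ) (α z : Fin N → ℝ), Antitone α → (∀ j, 0 ≤ α j) →
    (∀ a ≤ N, 0 ≤ ∑ j : Fin N, if (j : ℕ) < a then z j else 0) → 0 ≤ ∑ j, α j * z j := by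
  intro N
  induction N with
  | zero => intro α z _ _ _; simp
  | succ N ih =>
    intro α z hα hα0 hz
    have h1 := ih (fun j => α j.castSucc - α (Fin.last N)) (fun j => z j.castSucc)
      (fun i j hij => by
        have := hα (Fin.castSucc_le_castSucc_iff.2 hij)
        simp only
        linarith)
      (fun j => sub_nonneg.2 (hα (Fin.le_last _)))
      (fun a ha => by
        have h2 := hz a (by omega)
        rw [Fin.sum_univ_castSucc] at h2
        simpa [not_lt.2 ha] using h2)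
    have h2 := hz (N + 1) le_rfl
    have h3 : ∑ j : Fin (N + 1), (if (j : ℕ) < N + 1 then z j else 0) = ∑ j : Fin (N + 1), z j :=
      Finset.sum_congr rfl fun j _ => if_pos j.2
    rw [h3, Fin.sum_univ_castSucc] at h2
    rw [Fin.sum_univ_castSucc]
    have h4 : ∑ j : Fin N, (α j.castSucc - α (Fin.last N)) * z j.castSucc =
        ∑ j : Fin N, α j.castSucc * z j.castSucc - α (Fin.last N) * ∑ j : Fin N, z j.castSucc := by
      rw [Finset.mul_sum, ← Finset.sum_sub_distrib]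
      exact Finset.sum_congr rfl fun j _ => by ring
    rw [h4] at h1
    have h5 := mul_nonneg (hα0 (Fin.last N)) h2
    linarith

lemma abel_le {N : ℕ} (α x y : Fin N → ℝ) (hα : Antitone α) (hα0 : ∀ j, 0 ≤ α j)
    (h : ∀ a ≤ N, ∑ j : Fin N, (if (j : ℕ) < a then x j else 0) ≤
      ∑ j : Fin N, if (j : ℕ) < a then y j else 0) : ∑ j, α j * x j ≤ ∑ j, α j * y j := by
  have h1 := abel_nonneg N α (fun j => y j - x j) hα hα0 (fun a ha => by
    have h2 := h a ha
    rw [← sub_nonneg, ← Finset.sum_sub_distrib] at h2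
    refine le_of_le_of_eq h2 (Finset.sum_congr rfl fun j _ => ?_)
    split_ifs <;> simp)
  simp only [mul_sub, Finset.sum_sub_distrib] at h1
  linarith

/-- partial trace over the second factor -/
def ptr (P : Matrix (ι × κ) (ι × κ) ℂ) : Matrix ι ι ℂ := fun i j => ∑ k, P (i, k) (j, k)

/-- `1 ⊗ v` -/
def V (ι : Type) [DecidableEq ι] (v : κ → ℂ) : Matrix (ι × κ) ι ℂ :=
  fun x j => if x.1 = j then v x.2 else 0

lemma V_entry (P : Matrix (ι × κ) (ι × κ) ℂ) (v w : κ → ℂ) (i j : ι) :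
    ((V ι v)ᴴ * P * V ι w) i j =
      ∑ k, ∑ l, star (v k) * P (i, k) (j, l) * w l := by
  rw [Matrix.mul_apply, Fintype.sum_prod_type]
  simp only [Matrix.mul_apply, V, Matrix.conjTranspose_apply, Fintype.sum_prod_type]
  simp only [apply_ite star, star_zero, ite_mul, zero_mul, mul_ite, mul_zero]
  have h1 : ∀ x : ι, ∀ y : κ, (∑ x_1 : ι, ∑ x_2 : κ,
      if x_1 = i then star (v x_2) * P (x_1, x_2) (x, y) else 0) =
      ∑ k, star (v k) * P (i, k) (x, y) := by
    intro x y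
    rw [Finset.sum_eq_single i]
    · simp
    · intro b _ hb; simp [hb]
    · intro h; exact absurd (Finset.mem_univ _) h
  rw [Finset.sum_eq_single j]
  · simp only [if_true, h1]
    rw [Finset.sum_comm]
    refine Finset.sum_congr rfl fun l _ => ?_
    rw [Finset.sum_mul]
  · intro b _ hb; simp [hb]
  · intro h; exact absurd (Finset.mem_univ _) h

/-- the `d`-th compression `(1 ⊗ v_d)* P (1 ⊗ v_d)` -/
def G {K : Type} (U : Matrix κ K ℂ) (P : Matrix (ι × κ) (ι × κ) ℂ) (d : K) : Matrix ι ι ℂ :=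
  (V ι (fun k => U k d))ᴴ * P * V ι (fun k => U k d)

lemma G_psd {K : Type} (U : Matrix κ K ℂ) {P : Matrix (ι × κ) (ι × κ) ℂ} (hP : P.PosSemidef)
    (d : K) : (G U P d).PosSemidef := hP.conjTranspose_mul_mul_same _

lemma V_one {K : Type} [Fintype K] [DecidableEq K] {U : Matrix κ K ℂ} (hU : Uᴴ * U = 1) (d : K) :
    G U (1 : Matrix (ι × κ) (ι × κ) ℂ) d = 1 := by
  ext i j
  rw [G, V_entry]
  have h := congrFun (congrFun hU d) d
  rw [Matrix.mul_apply, Matrix.one_apply_eq] at h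
  simp only [Matrix.one_apply, Prod.mk.injEq]
  by_cases hij : i = j
  · subst hij
    simp only [true_and, if_true]
    refine Eq.trans ?_ h
    refine Finset.sum_congr rfl fun k _ => ?_
    rw [Finset.sum_eq_single k]
    · simp [Matrix.conjTranspose_apply]
    · intro b _ hb; simp [Ne.symm hb]
    · intro h'; exact absurd (Finset.mem_univ _) h'
  · simp [hij]

lemma G_psd' {K : Type} [Fintype K] [DecidableEq K] {U : Matrix κ K ℂ} (hU : Uᴴ * U = 1)
    {P : Matrix (ι × κ) (ι × κ) ℂ} (hP : (1 - P).PosSemidef) (d : K) :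
    (1 - G U P d).PosSemidef := by
  have h : 1 - G U P d = G U (1 - P) d := by
    rw [← V_one (ι := ι) hU d, G, G, G, Matrix.mul_sub, Matrix.sub_mul]
  rw [h]
  exact G_psd U hP d

lemma sum_G {K : Type} [Fintype K] [DecidableEq K] {U : Matrix κ K ℂ} (hU : U * Uᴴ = 1)
    (P : Matrix (ι × κ) (ι × κ) ℂ) : ∑ d, G U P d = ptr P := by
  ext i j
  rw [Matrix.sum_apply]
  simp only [G, V_entry]
  rw [Finset.sum_comm]
  unfold ptr
  refine Finset.sum_congr rfl fun k _ => ?_
  rw [Finset.sum_comm]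
  have h1 : ∀ l, ∑ d, star (U k d) * P (i, k) (j, l) * U l d = P (i, k) (j, l) *
      (1 : Matrix κ κ ℂ) l k := by
    intro l
    rw [← hU, Matrix.mul_apply, Finset.mul_sum]
    refine Finset.sum_congr rfl fun d _ => ?_
    rw [Matrix.conjTranspose_apply]
    ring
  simp only [h1]
  rw [Finset.sum_eq_single k]
  · simp
  · intro b _ hb; simp [hb]
  · intro h'; exact absurd (Finset.mem_univ _) h'

lemma ptr_psd {P : Matrix (ι × κ) (ι × κ) ℂ} (hP : P.PosSemidef) : (ptr P).PosSemidef := by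
  have h := sum_G (U := (1 : Matrix κ κ ℂ)) (by simp) P
  rw [← h]
  exact Matrix.posSemidef_sum _ fun d _ => G_psd _ hP d

lemma ptr_trace (P : Matrix (ι × κ) (ι × κ) ℂ) : (ptr P).trace = P.trace := by
  rw [Matrix.trace, Matrix.trace, Fintype.sum_prod_type]
  rfl

/-- the compression to the first `b` vectors -/
noncomputable def GB {N : ℕ} (U : Matrix κ (Fin N) ℂ) (P : Matrix (ι × κ) (ι × κ) ℂ) (b : ℕ) :
    Matrix ι ι ℂ := ∑ d : Fin N, if (d : ℕ) < b then G U P d else 0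

lemma GB_psd {N : ℕ} (U : Matrix κ (Fin N) ℂ) {P : Matrix (ι × κ) (ι × κ) ℂ} (hP : P.PosSemidef)
    (b : ℕ) : (GB U P b).PosSemidef := by
  refine Matrix.posSemidef_sum _ fun d _ => ?_
  split_ifs
  · exact G_psd _ hP d
  · exact PosSemidef.zero

lemma GB_le_ptr {N : ℕ} {U : Matrix κ (Fin N) ℂ} (hU : U * Uᴴ = 1)
    {P : Matrix (ι × κ) (ι × κ) ℂ} (hP : P.PosSemidef) (b : ℕ) :
    (ptr P - GB U P b).PosSemidef := by
  rw [← sum_G hU, GB, ← Finset.sum_sub_distrib]
  refine Matrix.posSemidef_sum _ fun d _ => ?_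
  split_ifs
  · rw [sub_self]; exact PosSemidef.zero
  · rw [sub_zero]; exact G_psd _ hP d

lemma GB_dg_le {N : ℕ} {U : Matrix κ (Fin N) ℂ} (hU : Uᴴ * U = 1)
    {P : Matrix (ι × κ) (ι × κ) ℂ} (hP : (1 - P).PosSemidef) (b : ℕ) (hb : b ≤ N)
    {K : Type} [Fintype K] [DecidableEq K] {W : Matrix ι K ℂ} (hW : Wᴴ * W = 1) (c : K) :
    dg W (GB U P b) c ≤ b := by
  have h1 : dg W (GB U P b) c = ∑ d : Fin N, if (d : ℕ) < b then dg W (G U P d) c else 0 := by
    unfold dg GB
    rw [Matrix.mul_sum, Matrix.sum_mul, Matrix.sum_apply, Complex.re_sum]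
    refine Finset.sum_congr rfl fun d _ => ?_
    split_ifs <;> simp
  rw [h1, ← card_lt hb]
  refine Finset.sum_le_sum fun d _ => ?_
  split_ifs
  · have := dg_mono W (G_psd' hU hP d) c
    rwa [dg_one hW] at this
  · exact le_rfl

/-- the key estimate -/
theorem key {N : ℕ} {U : Matrix κ (Fin N) ℂ} (hU : Uᴴ * U = 1) (hU' : U * Uᴴ = 1)
    {P : Matrix (ι × κ) (ι × κ) ℂ} (hP : P.PosSemidef) (hP' : (1 - P).PosSemidef)
    {W : Matrix ι (Fin (Fintype.card ι)) ℂ} (hW : Wᴴ * W = 1) (hW' : W * Wᴴ = 1)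
    (a b : ℕ) (ha : a ≤ Fintype.card ι) (hb : b ≤ N) :
    ∑ c : Fin (Fintype.card ι), (if (c : ℕ) < a then dg W (GB U P b) c else 0) ≤
      ∑ c : Fin (Fintype.card ι), if (c : ℕ) < a then
        min ((ptr_psd hP).1.eigenvalues₀ c) b else 0 := by
  rw [← trace_proj_mul]
  refine (kyfan_le (GB_psd U hP b) _ (proj_psd W a) (proj_psd' hW' a) a
    (trace_proj hW a ha).le).trans ?_
  refine Finset.sum_le_sum fun c _ => ?_
  split_ifs
  · refine le_min (weyl _ _ (GB_le_ptr hU' hP b) c) ?_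
    have h := GB_dg_le hU hP' b hb (su_left (GB_psd U hP b).1) c
    rw [dg, su_conj] at h
    simpa using h
  · exact le_rfl

/-- the weights -/
noncomputable def wt (r : ℝ) (d : ℕ) : ℝ := min r (d + 1) - min r d

lemma wt_nonneg (r : ℝ) (d : ℕ) : 0 ≤ wt r d := by
  unfold wt
  rw [sub_nonneg]
  exact min_le_min_left r (by linarith)

lemma wt_le_one (r : ℝ) (d : ℕ) : wt r d ≤ 1 := by
  unfold wt
  rcases le_total r (d : ℝ) with h | h
  · rw [min_eq_left h, min_eq_left (by linarith)]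
    simp
  · rw [min_eq_right h]
    have := min_le_right r ((d : ℝ) + 1)
    linarith

lemma sum_wt (r : ℝ) (hr : 0 ≤ r) (b : ℕ) : ∑ d ∈ range b, wt r d = min r b := by
  induction b with
  | zero => simp [hr]
  | succ b ih =>
    rw [Finset.sum_range_succ, ih, wt]
    push_cast
    ring

lemma sum_wt_fin {N : ℕ} (r : ℝ) (hr : 0 ≤ r) (b : ℕ) (hb : b ≤ N) :
    ∑ d : Fin N, (if (d : ℕ) < b then wt r d else 0) = min r b := by
  rw [Fin.sum_univ_eq_sum_range (fun d => if d < b then wt r d else 0), ← Finset.sum_filter,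
    ← sum_wt r hr b]
  congr 1
  ext j; simp only [mem_filter, mem_range]; omega

/-- `tr P (A ⊗ B)` in terms of the eigenbases -/
theorem trace_eq {A : Matrix ι ι ℂ} {B : Matrix κ κ ℂ} (hA : A.IsHermitian) (hB : B.IsHermitian)
    (P : Matrix (ι × κ) (ι × κ) ℂ) :
    (P * (A ⊗ₖ B)).trace.re = ∑ c, ∑ d, hA.eigenvalues₀ c * (hB.eigenvalues₀ d *
      dg (SU hA) (G (SU hB) P d) c) := by
  have h1 : A ⊗ₖ B = (SU hA ⊗ₖ SU hB) *
      (diagonal (fun j => ((hA.eigenvalues₀ j : ℝ) : ℂ)) ⊗ₖ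
        diagonal (fun j => ((hB.eigenvalues₀ j : ℝ) : ℂ))) * (SU hA ⊗ₖ SU hB)ᴴ := by
    rw [conjTranspose_kronecker, ← mul_kronecker_mul, ← mul_kronecker_mul, ← spectral hA,
      ← spectral hB]
  rw [h1, ← Matrix.mul_assoc, ← Matrix.mul_assoc, Matrix.trace_mul_comm, ← Matrix.mul_assoc,
    ← Matrix.mul_assoc, diagonal_kronecker_diagonal, Matrix.trace, Fintype.sum_prod_type,
    Complex.re_sum]
  refine Finset.sum_congr rfl fun c _ => ?_
  rw [Complex.re_sum]
  refine Finset.sum_congr rfl fun d _ => ?_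
  rw [Matrix.diag_apply, Matrix.mul_diagonal, dg, G]
  have h2 : (SU hA)ᴴ * ((V ι fun k => SU hB k d)ᴴ * P * V ι fun k => SU hB k d) * SU hA =
      (((V ι fun k => SU hB k d) * SU hA)ᴴ * P * ((V ι fun k => SU hB k d) * SU hA)) := by
    rw [Matrix.conjTranspose_mul]
    simp only [Matrix.mul_assoc]
  have h3 : (V ι fun k => SU hB k d) * SU hA = (SU hA ⊗ₖ SU hB).submatrix id (fun c => (c, d)) := by
    ext ⟨i, k⟩ c
    rw [Matrix.mul_apply]
    simp only [V, Matrix.submatrix_apply, id, Matrix.kroneckerMap_apply]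
    rw [Finset.sum_eq_single i]
    · rw [if_pos rfl, mul_comm]
    · intro b _ hb; rw [if_neg (Ne.symm hb), zero_mul]
    · intro h'; exact absurd (Finset.mem_univ _) h'
  rw [h2, h3]
  have h4 : (((SU hA ⊗ₖ SU hB).submatrix id (fun c => (c, d)))ᴴ * P *
      ((SU hA ⊗ₖ SU hB).submatrix id (fun c => (c, d)))) c c =
      ((SU hA ⊗ₖ SU hB)ᴴ * P * (SU hA ⊗ₖ SU hB)) (c, d) (c, d) := rfl
  rw [h4, mul_comm, ← mul_assoc, ← Complex.ofReal_mul, Complex.re_ofReal_mul]

/-- the bound for one term, with weights that depend on `P` only -/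
theorem term_le {A : Matrix ι ι ℂ} {B : Matrix κ κ ℂ} (hA : A.PosSemidef) (hB : B.PosSemidef)
    {P : Matrix (ι × κ) (ι × κ) ℂ} (hP : P.PosSemidef) (hP' : (1 - P).PosSemidef) :
    (P * (A ⊗ₖ B)).trace.re ≤ ∑ c, ∑ d, hA.1.eigenvalues₀ c * (hB.1.eigenvalues₀ d *
      wt ((ptr_psd hP).1.eigenvalues₀ c) d) := by
  rw [trace_eq hA.1 hB.1, Finset.sum_comm, Finset.sum_comm (f := fun c d =>
    hA.1.eigenvalues₀ c * (hB.1.eigenvalues₀ d * wt ((ptr_psd hP).1.eigenvalues₀ c) d))]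
  have e : ∀ f : Fin (Fintype.card ι) → Fin (Fintype.card κ) → ℝ,
      ∑ d, ∑ c, hA.1.eigenvalues₀ c * (hB.1.eigenvalues₀ d * f c d) =
      ∑ d, hB.1.eigenvalues₀ d * ∑ c, hA.1.eigenvalues₀ c * f c d := by
    intro f
    refine Finset.sum_congr rfl fun d _ => ?_
    rw [Finset.mul_sum]
    exact Finset.sum_congr rfl fun c _ => by ring
  rw [e (fun c d => dg (SU hA.1) (G (SU hB.1) P d) c),
    e (fun c d => wt ((ptr_psd hP).1.eigenvalues₀ c) d)]
  refine abel_le _ _ _ hB.1.eigenvalues₀_antitone (eig_nonneg hB) fun b hb => ?_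
  have e2 : ∀ f : Fin (Fintype.card ι) → Fin (Fintype.card κ) → ℝ,
      (∑ d : Fin (Fintype.card κ), if (d : ℕ) < b then ∑ c, hA.1.eigenvalues₀ c * f c d else 0) =
      ∑ c, hA.1.eigenvalues₀ c * ∑ d : Fin (Fintype.card κ), if (d : ℕ) < b then f c d else 0 := by
    intro f
    simp only [Finset.mul_sum]
    rw [Finset.sum_comm]
    refine Finset.sum_congr rfl fun d _ => ?_
    split_ifs
    · rfl
    · simp
  rw [e2 (fun c d => dg (SU hA.1) (G (SU hB.1) P d) c),
    e2 (fun c d => wt ((ptr_psd hP).1.eigenvalues₀ c) d)]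
  refine abel_le _ _ _ hA.1.eigenvalues₀_antitone (eig_nonneg hA) fun a ha => ?_
  have h := key (su_left hB.1) (su_right hB.1) hP hP' (su_left hA.1) (su_right hA.1) a b ha hb
  refine le_trans (le_of_eq ?_) (h.trans (le_of_eq ?_))
  · refine Finset.sum_congr rfl fun c _ => ?_
    split_ifs
    · unfold dg GB
      rw [Matrix.mul_sum, Matrix.sum_mul, Matrix.sum_apply, Complex.re_sum]
      refine Finset.sum_congr rfl fun d _ => ?_
      split_ifs <;> simp
    · rfl
  · refine Finset.sum_congr rfl fun c _ => ?_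
    split_ifs
    · exact (sum_wt_fin _ (eig_nonneg (ptr_psd hP) c) b hb).symm
    · rfl

lemma ptr_eig_le {P : Matrix (ι × κ) (ι × κ) ℂ} (hP : P.PosSemidef) (hP' : (1 - P).PosSemidef)
    (c : Fin (Fintype.card ι)) : (ptr_psd hP).1.eigenvalues₀ c ≤ Fintype.card κ := by
  have h1 : (1 : Matrix κ κ ℂ).IsHermitian := Matrix.isHermitian_one
  have h := GB_dg_le (su_left h1) hP' (Fintype.card κ) le_rfl (su_left (ptr_psd hP).1) c
  have h2 : GB (SU h1) P (Fintype.card κ) = ptr P := by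
    rw [← sum_G (su_right h1), GB]
    exact Finset.sum_congr rfl fun d _ => if_pos d.2
  rw [h2, dg, su_conj] at h
  simpa using h

end Pool.Agent.T5h70.SK
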